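import Mathlib
import Pool.Agent.Tng.FINAL

/-!
# Area preserving diffeomorphisms with a homoclinic tangency
-/

set_option autoImplicit false

open Set MeasureTheory Filter Topology
open scoped Manifold ContDiff

namespace Pool.Agent.Results.MP_3a2b62_an.HomoclinicTangency

section Definitions

variable (E : Type) [NormedAddCommGroup E] [NormedSpace ℝ E] {M : Type} [TopologicalSpace M]
  [ChartedSpace E M]

variable (M) in
/-- The smooth charts of the manifold `M` (modelled on `E`), i.e. its maximal `C^∞` atlas. -/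
def Ch : Set (OpenPartialHomeomorph M E) := IsManifold.maximalAtlas 𝓘(ℝ, E) ∞ M

/-- `g` is a `C^s` diffeomorphism of `M`. -/
def IsDiffeo (s : ℕ∞) (g : M → M) : Prop :=
  ∃ G : Diffeomorph 𝓘(ℝ, E) 𝓘(ℝ, E) M M s, (G : M → M) = g

/-- `μ` is a smooth volume: around every point there is a smooth chart in which `μ` is Lebesgue
measure. -/
def IsVolume [MeasureSpace E] [MeasurableSpace M] (μ : Measure M) : Prop :=
  ∀ q : M, ∃ e ∈ Ch E M, q ∈ e.source ∧
    ∀ A ⊆ e.source, MeasurableSet A → μ A = volume (e '' A)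

variable (M) in
/-- `M` is orientable: it is covered by smooth charts whose transition maps have positive
Jacobians. -/
def Orientable : Prop :=
  ∃ O ⊆ Ch E M, (∀ x : M, ∃ e ∈ O, x ∈ e.source) ∧ ∀ e ∈ O, ∀ e' ∈ O, ∀ x : M, x ∈ e.source →
    x ∈ e'.source → 0 < (fderiv ℝ (e' ∘ e.symm) (e x)).det

variable {E}

/-- On `K` the derivatives of order at most `r` of `g` and `f`, read in the charts `e` and `e'`,
differ by less than `ε`. -/
def CrClose (r : ℕ) (f g : M → M) (e e' : OpenPartialHomeomorph M E) (K : Set M) (ε : ℝ) :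
    Prop :=
  MapsTo g K e'.source ∧ ∀ x ∈ K, ∀ j ≤ r,
    ‖iteratedFDeriv ℝ j (e' ∘ g ∘ e.symm) (e x) - iteratedFDeriv ℝ j (e' ∘ f ∘ e.symm) (e x)‖ < ε

variable (E)

/-- `V` contains all maps that are close to `g` in the `C^r` topology: there are finitely many
compact sets `K i`, in charts `e i` and mapped by `g` into charts `e' i`, and an `ε > 0` such that
`V` contains all maps whose derivatives of order at most `r` on the sets `K i`, read in these
charts, differ from those of `g` by less than `ε`. -/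
def CrNhd (r : ℕ) (g : M → M) (V : Set (M → M)) : Prop :=
  ∃ (N : ℕ) (e e' : Fin N → OpenPartialHomeomorph M E) (K : Fin N → Set M) (ε : ℝ), 0 < ε ∧
    (∀ i, e i ∈ Ch E M ∧ e' i ∈ Ch E M ∧ IsCompact (K i) ∧ K i ⊆ (e i).source ∧
      MapsTo g (K i) (e' i).source) ∧
    ∀ g' : M → M, (∀ i, CrClose r g g' (e i) (e' i) (K i) ε) → g' ∈ V

variable {E}

/-- The derivative at `x` of the map `h`, read in the charts `e` (around `x`) and `e'` (around
`h x`). -/
noncomputable def D (e e' : OpenPartialHomeomorph M E) (h : M → M) (x : M) : E →L[ℝ] E :=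
  fderiv ℝ (e' ∘ h ∘ e.symm) (e x)

/-- The derivative of `f^m` at its fixed point `p` has a real eigenvalue `c` with `|c| ≠ 1`; so `p` is a
saddle if `f` preserves area. -/
def IsSaddle (e : OpenPartialHomeomorph M E) (f : M → M) (m : ℕ) (p : M) : Prop :=
  f^[m] p = p ∧ ∃ (w : E) (c : ℝ), w ≠ 0 ∧ |c| ≠ 1 ∧ D e e f^[m] p w = c • w

/-- `f^(mk) q → p` for `k → ∞`, and the derivatives of `f^(mk)` at `q` map the vector `v` to vectors
that tend to `0`: `q` is on the stable manifold of the saddle `p` and `v` is tangent to it. -/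
def TangentStable (e e' : OpenPartialHomeomorph M E) (f : M → M) (m : ℕ) (p q : M) (v : E) : Prop :=
  Tendsto (fun k : ℕ => f^[m * k] q) atTop (𝓝 p) ∧
    Tendsto (fun k : ℕ => D e' e f^[m * k] q v) atTop (𝓝 0)

/-- Some `f^(mi)` and `g^(mj)` with arbitrarily large `i`, `j` have at `q`, read in the charts `e'` and
`e`, Jacobians of the same sign. -/
def SameSign (e e' : OpenPartialHomeomorph M E) (f g : M → M) (m : ℕ) (q : M) : Prop :=
  ∀ K : ℕ, ∃ i ≥ K, ∃ j ≥ K, 0 < (D e' e f^[m * i] q).det * (D e' e g^[m * j] q).det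

variable (E)

/-- The bijective map `f` with inverse `g` has a homoclinic tangency: `p` is a saddle of `f^m`, the
point `q ≠ p` is on its stable and on its unstable manifold (the stable manifold for `g`), and a
nonzero vector `v` at `q` is tangent to both. Moreover `M` is orientable or `SameSign` holds. -/
def HasTangency (f : M → M) : Prop :=
  ∃ (g : M → M) (m : ℕ) (p q : M) (v : E), Function.LeftInverse g f ∧ Function.RightInverse g f ∧
    1 ≤ m ∧ q ≠ p ∧ v ≠ 0 ∧ ∃ e ∈ Ch E M, ∃ e' ∈ Ch E M, p ∈ e.source ∧ q ∈ e'.source ∧ IsSaddle e f m p ∧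
      TangentStable e e' f m p q v ∧ TangentStable e e' g m p q v ∧
      (Orientable E M ∨ SameSign e e' f g m q)

end Definitions

/-- The basin of `Λ`: the points whose `ω`-limit set is contained in `Λ`. -/
def basin {M : Type} [TopologicalSpace M] (g : M → M) (Λ : Set M) : Set M :=
  {x | ∀ y, MapClusterPt y atTop (fun k : ℕ => g^[k] x) → y ∈ Λ}

/-- `Λ` is an attractor of `g`: it is invariant and transitive, and its basin has positive
measure. -/
def IsAttractor {M : Type} [TopologicalSpace M] [MeasurableSpace M] (μ : Measure M) (g : M → M)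
    (Λ : Set M) : Prop :=
  g '' Λ = Λ ∧ (∃ x ∈ Λ, Λ ⊆ closure (range fun k : ℕ => g^[k] x)) ∧ 0 < μ (basin g Λ)

/-- `g` has an attractor which is a finite set (so it is a periodic orbit) and whose basin has full
measure. -/
def OneSink {M : Type} [TopologicalSpace M] [MeasurableSpace M] (μ : Measure M) (g : M → M) :
    Prop :=
  ∃ Λ : Set M, Λ.Finite ∧ IsAttractor μ g Λ ∧ μ (basin g Λ)ᶜ = 0

theorem exists_metric {M : Type} [t : TopologicalSpace M]
    (h : TopologicalSpace.MetrizableSpace M) :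
    ∃ d : MetricSpace M, d.toUniformSpace.toTopologicalSpace = t :=
  ⟨TopologicalSpace.metrizableSpaceMetric M, rfl⟩

theorem nbd_imp {n : ℕ} {M : Type} [TopologicalSpace M] [MeasurableSpace M]
    [ChartedSpace (EuclideanSpace ℝ (Fin n)) M] {μ : Measure M} {g : M → M}
    (h : Pool.Agent.Pal.Nbd n g {g' | Pool.Agent.Pal.OneSink μ g'}) :
    CrNhd (EuclideanSpace ℝ (Fin n)) 1 g
      {g' | IsDiffeo (EuclideanSpace ℝ (Fin n)) 1 g' → OneSink μ g'} := by
  obtain ⟨N, e, e', K, ε, hε, hv, hg'⟩ := h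
  exact ⟨N, e, e', K, ε, hε, hv, fun g' hc hd => hg' g' hd hc⟩

/-- Let `μ` be a smooth area on the closed connected surface `M` and `f` a `C^s` diffeomorphism
that preserves `μ` and has a homoclinic tangency. Every `C^r` neighbourhood of `f` (`1 ≤ r ≤ s`, `r`
finite) contains a `C^s` diffeomorphism `g` such that all `C^1` diffeomorphisms that are `C^1` close to
`g` have exactly one attractor, which is finite and has a basin of full measure. -/
theorem result (M : Type) [TopologicalSpace M] [T2Space M] [CompactSpace M] [ConnectedSpace M]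
    [ChartedSpace (EuclideanSpace ℝ (Fin 2)) M] [IsManifold 𝓘(ℝ, EuclideanSpace ℝ (Fin 2)) ∞ M]
    [MeasurableSpace M] [BorelSpace M]
    (μ : Measure M) (hμ : IsVolume (EuclideanSpace ℝ (Fin 2)) μ) (s : ℕ∞) (r : ℕ) (hr : 1 ≤ r)
    (hrs : (r : ℕ∞) ≤ s)
    (f : M → M) (hf : IsDiffeo (EuclideanSpace ℝ (Fin 2)) s f) (hfμ : MeasurePreserving f μ μ)
    (h : HasTangency (EuclideanSpace ℝ (Fin 2)) f)
    (V : Set (M → M)) (hV : CrNhd (EuclideanSpace ℝ (Fin 2)) r f V) :
    ∃ g ∈ V, IsDiffeo (EuclideanSpace ℝ (Fin 2)) s g ∧ CrNhd (EuclideanSpace ℝ (Fin 2)) 1 g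
      {g' | IsDiffeo (EuclideanSpace ℝ (Fin 2)) 1 g' → OneSink μ g'} := by
  have hmet : TopologicalSpace.MetrizableSpace M :=
    Manifold.metrizableSpace 𝓘(ℝ, EuclideanSpace ℝ (Fin 2)) M
  obtain ⟨d, hd⟩ := exists_metric hmet
  subst hd
  obtain ⟨N, e', e'', K, ε, hε, hv, hg'⟩ := hV
  have hrob := Pool.Agent.Pal.rob_all 2 M s r f hrs hf N e' e'' K ε hv
  have hfU : f ∈ {g : M → M | ∀ i, Pool.Agent.Pal.CrClose r f g (e' i) (e'' i) (K i) ε} :=
    fun i => ⟨(hv i).2.2.2.2, fun x hx j hj => by simpa using hε⟩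
  obtain ⟨g, m, p, q, v, hgf, hfg, hm, hqp, hv0, e₁, he₁, e₂, he₂, hp, hq, ⟨hfp, hsad⟩,
    ⟨hfw, hvf⟩, ⟨hbw, hvb⟩, hori⟩ := h
  have hg : Pool.Agent.Pal.IsDiffeo 2 s g := by
    obtain ⟨F, rfl⟩ := hf
    refine ⟨F.symm, funext fun x => ?_⟩
    have h1 := hgf (F.symm x)
    rw [F.apply_symm_apply] at h1
    exact h1.symm
  obtain ⟨h, hhU, hhd, hhN⟩ := Pool.Agent.Tng.tFIN M μ s r f g _ m p q e₁ e₂ v hr hrs hμ hf hg
    hgf hfg hfμ hrob hfU hm he₁ he₂ hp hq hfp hsad hqp hfw hbw hv0 hvf hvb hori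
  exact ⟨h, hg' h hhU, hhd, nbd_imp hhN⟩

end Pool.Agent.Results.MP_3a2b62_an.HomoclinicTangency
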