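import Mathlib
import Pool.Agent.PalT.FINAL

/-!
# Conservative diffeomorphisms with an invariant torus of codimension one
-/

set_option autoImplicit false

open Set MeasureTheory Filter Topology
open scoped Manifold ContDiff

namespace Pool.Agent.Results.MP_3a2b62_an.InvariantTorus

section Definitions

variable (E : Type) [NormedAddCommGroup E] [NormedSpace ℝ E] {M : Type} [TopologicalSpace M]
  [ChartedSpace E M]

variable (M) in
/-- The smooth charts of the manifold `M` (modelled on `E`), i.e. its maximal `C^∞` atlas. -/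
def Ch : Set (OpenPartialHomeomorph M E) := IsManifold.maximalAtlas 𝓘(ℝ, E) ∞ M

/-- `g` is a `C^s` diffeomorphism of `M`. -/
def IsDiffeo (s : ℕ∞) (g : M → M) : Prop :=
  ∃ G : Diffeomorph 𝓘(ℝ, E) 𝓘(ℝ, E) M M s, (G : M → M) = g

/-- `μ` is a smooth volume: around every point there is a smooth chart in which `μ` is Lebesgue
measure. -/
def IsVolume [MeasureSpace E] [MeasurableSpace M] (μ : Measure M) : Prop :=
  ∀ q : M, ∃ e ∈ Ch E M, q ∈ e.source ∧
    ∀ A ⊆ e.source, MeasurableSet A → μ A = volume (e '' A)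

variable {E}

/-- On `K` the derivatives of order at most `r` of `g` and `f`, read in the charts `e` and `e'`,
differ by less than `ε`. -/
def CrClose (r : ℕ) (f g : M → M) (e e' : OpenPartialHomeomorph M E) (K : Set M) (ε : ℝ) :
    Prop :=
  MapsTo g K e'.source ∧ ∀ x ∈ K, ∀ j ≤ r,
    ‖iteratedFDeriv ℝ j (e' ∘ g ∘ e.symm) (e x) - iteratedFDeriv ℝ j (e' ∘ f ∘ e.symm) (e x)‖ < ε

variable (E)

/-- `V` contains all maps that are close to `g` in the `C^r` topology: there are finitely many
compact sets `K i`, in charts `e i` and mapped by `g` into charts `e' i`, and an `ε > 0` such that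
`V` contains all maps whose derivatives of order at most `r` on the sets `K i`, read in these
charts, differ from those of `g` by less than `ε`. -/
def CrNhd (r : ℕ) (g : M → M) (V : Set (M → M)) : Prop :=
  ∃ (N : ℕ) (e e' : Fin N → OpenPartialHomeomorph M E) (K : Fin N → Set M) (ε : ℝ), 0 < ε ∧
    (∀ i, e i ∈ Ch E M ∧ e' i ∈ Ch E M ∧ IsCompact (K i) ∧ K i ⊆ (e i).source ∧
      MapsTo g (K i) (e' i).source) ∧
    ∀ g' : M → M, (∀ i, CrClose r g g' (e i) (e' i) (K i) ε) → g' ∈ V

end Definitions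

/-- The basin of `Λ`: the points whose `ω`-limit set is contained in `Λ`. -/
def basin {M : Type} [TopologicalSpace M] (g : M → M) (Λ : Set M) : Set M :=
  {x | ∀ y, MapClusterPt y atTop (fun k : ℕ => g^[k] x) → y ∈ Λ}

/-- `Λ` is an attractor of `g`: it is invariant and transitive, and its basin has positive
measure. -/
def IsAttractor {M : Type} [TopologicalSpace M] [MeasurableSpace M] (μ : Measure M) (g : M → M)
    (Λ : Set M) : Prop :=
  g '' Λ = Λ ∧ (∃ x ∈ Λ, Λ ⊆ closure (range fun k : ℕ => g^[k] x)) ∧ 0 < μ (basin g Λ)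

/-- `g` has an attractor which is a finite set (so it is a periodic orbit) and whose basin has full
measure. -/
def OneSink {M : Type} [TopologicalSpace M] [MeasurableSpace M] (μ : Measure M) (g : M → M) :
    Prop :=
  ∃ Λ : Set M, Λ.Finite ∧ IsAttractor μ g Λ ∧ μ (basin g Λ)ᶜ = 0

section Torus

variable {d : ℕ} {M : Type} [TopologicalSpace M] [ChartedSpace (EuclideanSpace ℝ (Fin (d + 1))) M]

/-- The vectors whose coordinate `x 0` is `0` and whose other coordinates are integers. -/
def Lat (d : ℕ) : Set (EuclideanSpace ℝ (Fin (d + 1))) := {v | v 0 = 0 ∧ ∀ i, ∃ k : ℤ, v i = k}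

/-- The strip `|x 0| < w`. -/
def Strip (d : ℕ) (w : ℝ) : Set (EuclideanSpace ℝ (Fin (d + 1))) := {x | |x 0| < w}

/-- `T` parametrises a collar of an embedded `d`-dimensional torus in the `(d + 1)`-dimensional
manifold `M`: on the strip `|x 0| < w` it is locally the inverse of a smooth chart, and
`T x = T x'` if and only if `x - x'` is an integer vector with first coordinate `0`. -/
def Collar (w : ℝ) (T : EuclideanSpace ℝ (Fin (d + 1)) → M) : Prop :=
  0 < w ∧
    (∀ x ∈ Strip d w, ∃ e ∈ Ch (EuclideanSpace ℝ (Fin (d + 1))) M, x ∈ e.target ∧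
      ∀ᶠ z in 𝓝 x, T z = e.symm z) ∧
    ∀ x ∈ Strip d w, ∀ x' ∈ Strip d w, (T x = T x' ↔ x - x' ∈ Lat d)

/-- The torus of the collar `T`. -/
def Torus (T : EuclideanSpace ℝ (Fin (d + 1)) → M) : Set M := T '' {x | x 0 = 0}

variable (d) in
/-- The map `f` has a periodic torus of codimension one with a collar: the torus is disjoint from
its images under `f, …, f^(m-1)`, it is invariant under `f^m`, and on it `f^m` is, in the
coordinates of the collar, the translation by the vector `α`. -/
def HasTorus (f : M → M) : Prop :=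
  ∃ (w : ℝ) (T : EuclideanSpace ℝ (Fin (d + 1)) → M) (m : ℕ)
    (α : EuclideanSpace ℝ (Fin (d + 1))), Collar w T ∧ 1 ≤ m ∧ α 0 = 0 ∧
    (∀ x, x 0 = 0 → f^[m] (T x) = T (x + α)) ∧
    ∀ i, 0 < i → i < m → Disjoint (f^[i] '' Torus T) (Torus T)

end Torus

theorem exists_metric {M : Type} [t : TopologicalSpace M]
    (h : TopologicalSpace.MetrizableSpace M) :
    ∃ d : MetricSpace M, d.toUniformSpace.toTopologicalSpace = t :=
  ⟨TopologicalSpace.metrizableSpaceMetric M, rfl⟩

theorem nbd_imp {n : ℕ} {M : Type} [TopologicalSpace M] [MeasurableSpace M]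
    [ChartedSpace (EuclideanSpace ℝ (Fin n)) M] {μ : Measure M} {g : M → M}
    (h : Pool.Agent.Pal.Nbd n g {g' | Pool.Agent.Pal.OneSink μ g'}) :
    CrNhd (EuclideanSpace ℝ (Fin n)) 1 g
      {g' | IsDiffeo (EuclideanSpace ℝ (Fin n)) 1 g' → OneSink μ g'} := by
  obtain ⟨N, e, e', K, ε, hε, hv, hg'⟩ := h
  exact ⟨N, e, e', K, ε, hε, hv, fun g' hc hd => hg' g' hd hc⟩

/-- Let `μ` be a smooth volume on the closed connected manifold `M` of dimension `d + 1 ≥ 2` and `f`
a `C^∞` diffeomorphism that preserves `μ` and has a periodic torus of codimension one (with a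
collar) on which `f^m` is smoothly conjugate to a translation. For every finite `r ≥ 1`, every
`C^r` neighbourhood of `f` contains a `C^∞` diffeomorphism `g` such that all `C^1` diffeomorphisms
that are `C^1` close to `g` have exactly one attractor, which is finite and has a basin of full
measure. -/
theorem result (d : ℕ) (hd : 1 ≤ d) (M : Type) [TopologicalSpace M] [T2Space M] [CompactSpace M]
    [ConnectedSpace M] [ChartedSpace (EuclideanSpace ℝ (Fin (d + 1))) M]
    [IsManifold 𝓘(ℝ, EuclideanSpace ℝ (Fin (d + 1))) ∞ M] [MeasurableSpace M] [BorelSpace M]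
    (μ : Measure M) (hμ : IsVolume (EuclideanSpace ℝ (Fin (d + 1))) μ)
    (f : M → M) (hf : IsDiffeo (EuclideanSpace ℝ (Fin (d + 1))) ⊤ f)
    (hfμ : MeasurePreserving f μ μ) (hT : HasTorus d f) (r : ℕ) (hr : 1 ≤ r)
    (V : Set (M → M)) (hV : CrNhd (EuclideanSpace ℝ (Fin (d + 1))) r f V) :
    ∃ g ∈ V, IsDiffeo (EuclideanSpace ℝ (Fin (d + 1))) ⊤ g ∧
      CrNhd (EuclideanSpace ℝ (Fin (d + 1))) 1 g
        {g' | IsDiffeo (EuclideanSpace ℝ (Fin (d + 1))) 1 g' → OneSink μ g'} := by
  have hmet : TopologicalSpace.MetrizableSpace M :=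
    Manifold.metrizableSpace 𝓘(ℝ, EuclideanSpace ℝ (Fin (d + 1))) M
  obtain ⟨D, hD⟩ := exists_metric hmet
  subst hD
  obtain ⟨N, e', e'', K, ε, hε, hv, hg'⟩ := hV
  obtain ⟨w, T, m, α, hT, hm, hα, hfα, hdis⟩ := hT
  have hrob := Pool.Agent.Pal.rob_all (d + 1) M ⊤ r f le_top hf N e' e'' K ε hv
  have hrobT := Pool.Agent.PalT.robT_all d M ⊤ r f le_top hf N e' e'' K ε hv
  obtain ⟨g, hgU, hgd, hgN⟩ := Pool.Agent.PalT.tMAINT d M μ r f _ m w T α hd hr hμ hf hfμ hrob
    hrobT (fun i => ⟨(hv i).2.2.2.2, fun x hx j hj => by simpa using hε⟩) hm hT hα hfα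
    (fun i h0 hi x x' hx hx' h => by
      refine Set.disjoint_left.1 (hdis i h0 hi) (mem_image_of_mem _ (mem_image_of_mem T hx)) ?_
      rw [h]
      exact mem_image_of_mem T hx')
  exact ⟨g, hg' g hgU, hgd, nbd_imp hgN⟩

end Pool.Agent.Results.MP_3a2b62_an.InvariantTorus
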