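import Pool.Agent.Zfl.FINAL

/-!
# Conservative fields with a symplectic closed orbit all of whose exponents vanish are limits of
fields with one attractor of full basin
-/

set_option autoImplicit false

open scoped Manifold ContDiff Topology
open MeasureTheory Set Filter Pool.Agent.Palis Pool.Agent.PalF

namespace Pool.Agent.Results.MP_3a2b62_an.ZeroExponentOrbit

section Symplectic

variable {V : Type} [NormedAddCommGroup V] [NormedSpace ℝ V]

/-- `Ω` is a symplectic form on the vector space `V`: it is alternating and nondegenerate. -/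
def IsSymplectic (Ω : V →L[ℝ] V →L[ℝ] ℝ) : Prop :=
  (∀ v, Ω v v = 0) ∧ ∀ v, v ≠ 0 → ∃ w, Ω v w ≠ 0

/-- The map `R` preserves the constant form `Ω` near `0`. -/
def Preserves (Ω : V →L[ℝ] V →L[ℝ] ℝ) (R : V → V) : Prop :=
  ∀ᶠ y in 𝓝 (0 : V), ∀ v w, Ω (fderiv ℝ R y v) (fderiv ℝ R y w) = Ω v w

/-- All complex eigenvalues of `A` have modulus one. -/
def UnitSpectrum [FiniteDimensional ℝ V] (A : V →L[ℝ] V) : Prop :=
  ∀ z : ℂ, ((A : V →ₗ[ℝ] V).charpoly.map (algebraMap ℝ ℂ)).IsRoot z → ‖z‖ = 1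

end Symplectic

section Chart

variable (E : Type) [NormedAddCommGroup E] [NormedSpace ℝ E] {M : Type} [TopologicalSpace M]
  [ChartedSpace E M] [MeasurableSpace M] (μ : Measure M) (X : ∀ x : M, TangentSpace 𝓘(ℝ, E) x)

/-- `Φ` is a flow chart at `p`: a smooth chart with values in `ℝ × V` and `Φ p = 0`, in which the
field `X` is the unit field in the direction of the first coordinate and `μ` is Lebesgue measure. -/
structure FlowChart (p : M) {V : Type} [NormedAddCommGroup V] [NormedSpace ℝ V] [MeasureSpace V]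
    (Φ : OpenPartialHomeomorph M (ℝ × V)) : Prop where
  mem : p ∈ Φ.source
  zero : Φ p = 0
  smooth : ContMDiffOn 𝓘(ℝ, E) 𝓘(ℝ, ℝ × V) ∞ Φ Φ.source
  smooth_symm : ContMDiffOn 𝓘(ℝ, ℝ × V) 𝓘(ℝ, E) ∞ Φ.symm Φ.target
  field : ∀ x ∈ Φ.source, (mfderiv 𝓘(ℝ, E) 𝓘(ℝ, ℝ × V) Φ x (X x) : ℝ × V) = (1, 0)
  meas : ∀ A ⊆ Φ.source, MeasurableSet A → μ A = volume (Φ '' A)

/-- The return map in the flow chart `Φ`: the `V` coordinate of the image of the point with
coordinates `(0, y)` under the time `τ` map `F`. -/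
def ret {M V : Type} [TopologicalSpace M] [TopologicalSpace V]
    (Φ : OpenPartialHomeomorph M (ℝ × V)) (F : M → M) (y : V) : V :=
  (Φ (F (Φ.symm (0, y)))).2

/-- In a flow chart at `γ 0` with values in `ℝ × V` the return map preserves a constant symplectic
form near `0`, and all eigenvalues of its derivative at `0` (the Floquet multipliers of `γ`) have
modulus one. -/
def ZeroExponents (γ : ℝ → M) (τ : ℝ) (V : Type) [NormedAddCommGroup V] [NormedSpace ℝ V]
    [FiniteDimensional ℝ V] [MeasureSpace V] : Prop :=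
  ∃ (F : M → M) (Φ : OpenPartialHomeomorph M (ℝ × V)) (Ω : V →L[ℝ] V →L[ℝ] ℝ),
    IsTimeMap E X τ F ∧ FlowChart E μ X (γ 0) Φ ∧ IsSymplectic Ω ∧ Preserves Ω (ret Φ F) ∧
      UnitSpectrum (fderiv ℝ (ret Φ F) 0)

end Chart

/-- Let `M` be a closed connected manifold with a smooth volume `μ` and `X` a divergence free
`C^∞` field with a closed orbit `γ` of minimal period `τ`. Suppose that in a flow chart at `γ 0` the
return map preserves a constant symplectic form near `0`, and that all its eigenvalues at `0` (the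
Floquet multipliers of `γ`) have modulus one. Then, in the `C^r` topology, for every `r ≤ ∞`, `X`
is a limit of `C^∞` fields `Y` for which `γ` is a closed orbit and an attractor whose basin has full
measure. -/
theorem result (E : Type) [NormedAddCommGroup E] [NormedSpace ℝ E] [FiniteDimensional ℝ E]
    [MeasurableSpace E] [BorelSpace E]
    (M : Type) [TopologicalSpace M] [ChartedSpace E M] [IsManifold 𝓘(ℝ, E) ∞ M] [T2Space M]
    [CompactSpace M] [ConnectedSpace M] [MeasurableSpace M] [BorelSpace M]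
    (μ : Measure M) (hμ : IsSmoothVolume E μ) (X : VField E M ⊤) (hX : DivFree E μ X)
    (γ : ℝ → M) (τ : ℝ) (hγ : IsClosedOrbit E X γ τ) (d : ℕ)
    (hz : ZeroExponents E μ X γ τ (EuclideanSpace ℝ (Fin d))) (r : ℕ∞) :
    toCr E M r X ∈ @closure _ (crTopology E M r) {Y | IsSmoothField E Y ∧
      IsClosedOrbit E Y γ τ ∧ AttractsAlmostAll E Y (range γ)} := by
  obtain ⟨F, Φ, Ω, hF, hΦ, hΩ, hpres, hspec⟩ := hz
  have hSf : Pool.Agent.Zex.Sf Ω := ⟨hΩ.1, fun v h => by
    by_contra hv0
    obtain ⟨w, hw⟩ := hΩ.2 v hv0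
    exact hw (h w)⟩
  refine clo1 E M r X {Y | IsSmoothField E Y ∧ IsClosedOrbit E Y γ τ ∧
    AttractsAlmostAll E Y (range γ)} (fun Y hY => hY.1) (fun k _ => ?_)
  exact Pool.Agent.Zfl.tFMN d E M μ X γ τ k Φ F Ω hμ X.contMDiff hX hγ hF hΦ.mem hΦ.zero hΦ.smooth
    hΦ.smooth_symm hΦ.field hΦ.meas hSf hpres hspec

end Pool.Agent.Results.MP_3a2b62_an.ZeroExponentOrbit
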